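import Pool.Agent.H2.NL.Basic

/-!
Board nil_modules (MP_fd35e1_ag), row EIG: an eigenvector of the symmetrization of the identity.
-/

set_option autoImplicit false
set_option linter.unusedSectionVars false

open Matrix Pool.Agent.H2.NL Pool.Agent.H64.CC

namespace Pool.Agent.H65.NL

section

variable {K : Type} [Field K] {I : Type} [Fintype I] [DecidableEq I] (F : Form K I)

private lemma ks_int (p q : Bool) : ∃ z : ℤ, ks K p q = (z : K) := by
  unfold ks
  split_ifs
  · exact ⟨-1, by push_cast; rfl⟩
  · exact ⟨1, by push_cast; rfl⟩

private lemma sw_int (o : I → Bool) (j : ℕ) : ∀ y : List I → K, (∀ w, ∃ z : ℤ, y w = (z : K)) →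
    ∀ w, ∃ z : ℤ, sw o j y w = (z : K) := by
  induction j with
  | zero =>
    intro y hy w
    match w with
    | [] => exact hy []
    | [x] => exact hy [x]
    | x :: x' :: w =>
      obtain ⟨z, hz⟩ := hy (x' :: x :: w)
      obtain ⟨z', hz'⟩ := ks_int (K := K) (o x) (o x')
      refine ⟨z' * z, ?_⟩
      change ks K (o x) (o x') * y (x' :: x :: w) = _
      rw [hz, hz']
      push_cast
      rfl
  | succ j ih =>
    intro y hy w
    match w with
    | [] => exact hy []
    | x :: w => exact ih (fun l' => y (x :: l')) (fun l' => hy (x :: l')) w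

private lemma ω_int (x y : I) : ∃ z : ℤ, F.ω x y = (z : K) := by
  unfold Form.ω
  rw [Matrix.of_apply]
  split_ifs
  · rcases F.c_val y with h | h
    · exact ⟨1, by rw [h]; push_cast; rfl⟩
    · exact ⟨-1, by rw [h]; push_cast; rfl⟩
  · exact ⟨0, by push_cast; rfl⟩

private lemma zip_int (α : List I) : ∀ γ : List I,
    ∃ z : ℤ, (List.zipWith (fun a b => F.ω a b) α γ).prod = (z : K) := by
  induction α with
  | nil => intro γ; exact ⟨1, by simp⟩
  | cons x α ih =>
    intro γ
    match γ with
    | [] => exact ⟨1, by simp⟩
    | y :: γ =>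
      obtain ⟨z, hz⟩ := ih γ
      obtain ⟨z', hz'⟩ := ω_int F x y
      refine ⟨z' * z, ?_⟩
      rw [List.zipWith_cons_cons, List.prod_cons, hz, hz']
      push_cast
      rfl

private lemma zip_ne (α : List I) : ∀ γ : List I, α.length = γ.length →
    (List.zipWith (fun a b => F.ω a b) α γ).prod ≠ 0 → γ = α.map F.st := by
  induction α with
  | nil =>
    intro γ h _
    exact List.length_eq_zero_iff.1 h.symm
  | cons x α ih =>
    intro γ h hne
    match γ, h with
    | y :: γ, h =>
      rw [List.zipWith_cons_cons, List.prod_cons] at hne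
      have h1 : F.ω x y ≠ 0 := left_ne_zero_of_mul hne
      have h2 := ih γ (by simpa using h) (right_ne_zero_of_mul hne)
      have h3 : y = F.st x := by
        by_contra hn
        exact h1 (by rw [Form.ω, Matrix.of_apply, if_neg hn])
      rw [List.map_cons, ← h2, h3]

private lemma zip_one (α : List I) : ∀ γ : List I, (∀ y ∈ γ, F.o y = false) →
    (List.zipWith (fun a b => F.ω a b) α γ).prod = 0 ∨
      (List.zipWith (fun a b => F.ω a b) α γ).prod = 1 := by
  induction α with
  | nil => intro γ _; right; simp
  | cons x α ih =>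
    intro γ h
    match γ, h with
    | [], _ => right; simp
    | y :: γ, h =>
      rw [List.zipWith_cons_cons, List.prod_cons]
      rcases ih γ fun z hz => h z (List.mem_cons_of_mem _ hz) with h1 | h1
      · left; rw [h1, mul_zero]
      · rw [h1, mul_one, Form.ω, Matrix.of_apply]
        split_ifs
        · right
          exact F.c_even y (h y (List.mem_cons_self ..))
        · left; rfl

/-- the properties of the tensors -/
private structure Gd (a : I) (l : ℕ) (y : List I → K) : Prop where
  e1 : ∀ w : List I, w.length = 2 * l → y w ≠ 0 → ∀ b, w.count b = w.count (F.st b)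
  e2 : ∀ w : List I, w.length = 2 * l → (∀ b ∈ w, b = a ∨ b = F.st a) → y w = 0 ∨ y w = 1
  e3 : ∀ w : List I, ∃ z : ℤ, y w = (z : K)

private lemma gd_idt (a : I) (ha : F.o a = false) (l : ℕ) : Gd F a l (idt F.ω l) where
  e1 := by
    intro w hw hne b
    unfold idt at hne
    have h1 : (w.take l).length = (w.drop l).reverse.length := by
      rw [List.length_reverse, List.length_take, List.length_drop]
      omega
    have h2 := zip_ne F _ _ h1 hne
    have h3 : w.drop l = ((w.take l).map F.st).reverse := by
      rw [← h2, List.reverse_reverse]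
    have h4 : ∀ x, ((w.take l).map F.st).count x = (w.take l).count (F.st x) := by
      intro x
      have := List.count_map_of_injective (w.take l) F.st F.st_inj (F.st x)
      rw [F.st_st] at this
      exact this
    have h5 : ∀ x, w.count x = (w.take l).count x + (w.take l).count (F.st x) := by
      intro x
      conv_lhs => rw [← List.take_append_drop l w]
      rw [List.count_append, h3, List.count_reverse, h4]
    rw [h5, h5, F.st_st, add_comm]
  e2 := by
    intro w _ hl
    refine zip_one F _ _ fun y hy => ?_
    rw [List.mem_reverse] at hy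
    rcases hl y (List.mem_of_mem_drop hy) with rfl | rfl
    · exact ha
    · rw [F.o_st, ha]
  e3 := fun w => zip_int F _ _

private lemma gd_sw (a : I) (ha : F.o a = false) (l j : ℕ) (hj : j + 2 ≤ 2 * l)
    {y : List I → K} (hy : Gd F a l y) : Gd F a l (sw F.o j y) where
  e1 := by
    intro w hw hne b
    obtain ⟨α, x, x', β, rfl, rfl⟩ := exists_split j w (by omega)
    rw [sw_append] at hne
    have h1 := hy.e1 (α ++ x' :: x :: β) (by simp at hw ⊢; omega) (right_ne_zero_of_mul hne)
    have h2 : ∀ c, (α ++ x :: x' :: β).count c = (α ++ x' :: x :: β).count c := fun c =>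
      List.Perm.count_eq (List.Perm.append_left α (List.Perm.swap x' x β)) c
    rw [h2, h2]
    exact h1 b
  e2 := by
    intro w hw hl
    obtain ⟨α, x, x', β, rfl, rfl⟩ := exists_split j w (by omega)
    rw [sw_append]
    have h1 : F.o x = false := by
      rcases hl x (by simp) with h | h
      · rw [h, ha]
      · rw [h, F.o_st, ha]
    rw [h1, ks_false_left, one_mul]
    refine hy.e2 _ (by simp at hw ⊢; omega) fun b hb => hl b ?_
    simp only [List.mem_append, List.mem_cons] at hb ⊢
    tauto
  e3 := sw_int F.o j y hy.e3

private lemma gd_sws (a : I) (ha : F.o a = false) (l : ℕ) (js : List ℕ)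
    (hjs : ∀ j ∈ js, j + 2 ≤ 2 * l) : Gd F a l (sws F.o js (idt F.ω l)) := by
  induction js with
  | nil => exact gd_idt F a ha l
  | cons j js ih =>
    exact gd_sw F a ha l j (hjs j (List.mem_cons_self ..))
      (ih fun i hi => hjs i (List.mem_cons_of_mem _ hi))

end

private lemma sum_int {K : Type} [Field K] (s : List K) (h : ∀ x ∈ s, ∃ z : ℤ, x = (z : K)) :
    ∃ z : ℤ, s.sum = (z : K) := by
  induction s with
  | nil => exact ⟨0, by simp⟩
  | cons x s ih =>
    obtain ⟨z, hz⟩ := ih fun y hy => h y (List.mem_cons_of_mem _ hy)
    obtain ⟨z', hz'⟩ := h x (List.mem_cons_self ..)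
    exact ⟨z' + z, by rw [List.sum_cons, hz, hz']; push_cast; rfl⟩

private lemma sum_nat {K : Type} [Field K] (s : List K) (h : ∀ x ∈ s, x = 0 ∨ x = 1) :
    ∃ c : ℕ, s.sum = (c : K) ∧ ((1 : K) ∈ s → 1 ≤ c) := by
  induction s with
  | nil => exact ⟨0, by simp, by simp⟩
  | cons x s ih =>
    obtain ⟨c, hc, hc1⟩ := ih fun y hy => h y (List.mem_cons_of_mem _ hy)
    rcases h x (List.mem_cons_self ..) with rfl | rfl
    · refine ⟨c, by rw [List.sum_cons, hc, zero_add], fun hm => hc1 ?_⟩
      rcases List.mem_cons.1 hm with h1 | h1
      · exact absurd h1 one_ne_zero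
      · exact h1
    · refine ⟨1 + c, by rw [List.sum_cons, hc]; push_cast; rfl, fun _ => by omega⟩

/-- EIG: an eigenvector of the symmetrization of the identity. -/
theorem pf_EIG : T_EIG := by
  intro K _ _ I _ _ F l L a hL hLj ha
  have hG : ∀ js ∈ L, Gd F a l (sws F.o js (idt F.ω l)) := fun js hjs =>
    gd_sws F a ha l js (hLj js hjs)
  refine ⟨?_, ?_, ?_⟩
  · intro u hu hne
    obtain ⟨js, hjs, hne'⟩ : ∃ js ∈ L, sws F.o js (idt F.ω l)
        (u ++ List.replicate l (F.st a)) ≠ 0 := by
      by_contra hno
      push Not at hno
      refine hne (List.sum_eq_zero fun x hx => ?_)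
      obtain ⟨js, hjs, rfl⟩ := List.mem_map.1 hx
      exact hno js hjs
    have h1 := (hG js hjs).e1 _ (by
      rw [List.length_append, List.length_replicate, hu]; ring) hne' a
    rw [List.count_append, List.count_append, List.count_replicate_self,
      List.count_eq_zero_of_not_mem (a := a) (l := List.replicate l (F.st a))
        (fun hm => (F.st_ne a) (List.eq_of_mem_replicate hm).symm)] at h1
    have h2 : u.count a ≤ u.length := List.count_le_length
    have h3 : u.count a = u.length := by omega
    have h4 := List.count_eq_length.1 h3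
    rw [← hu]
    exact List.eq_replicate_length.2 fun b hb => (h4 b hb).symm
  · obtain ⟨c, hc, hc1⟩ := sum_nat (L.map fun js => sws F.o js (idt F.ω l)
      (List.replicate l a ++ List.replicate l (F.st a))) (by
        intro x hx
        obtain ⟨js, hjs, rfl⟩ := List.mem_map.1 hx
        refine (hG js hjs).e2 _ (by
          rw [List.length_append, List.length_replicate, List.length_replicate]; ring) ?_
        intro b hb
        rcases List.mem_append.1 hb with h | h
        · exact Or.inl (List.eq_of_mem_replicate h)
        · exact Or.inr (List.eq_of_mem_replicate h))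
    refine ⟨c, hc1 ?_, hc⟩
    refine List.mem_map.2 ⟨[], hL, ?_⟩
    change idt F.ω l (List.replicate l a ++ List.replicate l (F.st a)) = 1
    have hcs : F.c (F.st a) = 1 := F.c_even _ (by rw [F.o_st, ha])
    have h5 : ∀ n : ℕ, (List.zipWith (fun a b => F.ω a b) (List.replicate n a)
        (List.replicate n (F.st a))).prod = 1 := by
      intro n
      induction n with
      | zero => simp
      | succ n ih =>
        rw [List.replicate_succ, List.replicate_succ, List.zipWith_cons_cons, List.prod_cons, ih,
          mul_one, Form.ω, Matrix.of_apply, if_pos rfl, hcs]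
    unfold idt
    rw [List.take_left' (List.length_replicate ..), List.drop_left' (List.length_replicate ..),
      List.reverse_replicate]
    exact h5 l
  · intro w
    refine sum_int _ fun x hx => ?_
    obtain ⟨js, hjs, rfl⟩ := List.mem_map.1 hx
    exact (hG js hjs).e3 w

end Pool.Agent.H65.NL
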