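import Pool.Agent.H2.NL.Basic

/-!
Board nil_modules (MP_fd35e1_ag), row SDM: the super dimension.
-/

set_option autoImplicit false

open Matrix Pool.Agent.H2.NL Pool.Agent.H64.CC

namespace Pool.Agent.H65.NL

private lemma even_card {α : Type} (s : Finset α) (g : α → α) (hmem : ∀ a ∈ s, g a ∈ s)
    (hne : ∀ a ∈ s, g a ≠ a) (hinv : ∀ a ∈ s, g (g a) = a) : Even s.card := by
  have h : ∑ a ∈ s, (1 : ZMod 2) = 0 := by
    refine Finset.sum_involution (fun a _ => g a) ?_ ?_ ?_ ?_
    · intro a _
      decide
    · intro a ha _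
      exact hne a ha
    · intro a ha
      exact hmem a ha
    · intro a ha
      exact hinv a ha
  rw [Finset.sum_const, nsmul_eq_mul, mul_one, ZMod.natCast_eq_zero_iff] at h
  exact even_iff_two_dvd.2 h

/-- SDM: the super dimension. -/
theorem pf_SDM : T_SDM := by
  intro K _ _ V P _ _ _ _ F A hS
  -- the parts of the involution
  choose gV hgV using hS.st_V
  have hstP : ∀ y : P, ∃ y' : P, F.st (Sum.inr y) = Sum.inr y' := by
    intro y
    rcases h : F.st (Sum.inr y) with q | y'
    · exfalso
      have h1 := F.st_st (Sum.inr y)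
      rw [h, hgV] at h1
      exact Sum.inl_ne_inr h1
    · exact ⟨y', rfl⟩
  choose gP hgP using hstP
  have hV : Even (Fintype.card V) := by
    refine even_card Finset.univ gV (fun a _ => Finset.mem_univ _) ?_ ?_
    · intro a _ h
      have h1 := F.st_ne (Sum.inl a)
      rw [hgV, h] at h1
      exact h1 rfl
    · intro a _
      have h1 := F.st_st (Sum.inl a)
      rw [hgV, hgV] at h1
      exact Sum.inl_injective h1
  set s0 := Finset.univ.filter fun y : P => F.o (Sum.inr y) = false with hs0
  set s1 := Finset.univ.filter fun y : P => ¬ F.o (Sum.inr y) = false with hs1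
  have hPi : ∀ y : P, F.o (Sum.inr (gP y)) = F.o (Sum.inr y) := by
    intro y
    rw [← hgP, F.o_st]
  have hPne : ∀ y : P, gP y ≠ y := by
    intro y h
    have h1 := F.st_ne (Sum.inr y)
    rw [hgP, h] at h1
    exact h1 rfl
  have hPinv : ∀ y : P, gP (gP y) = y := by
    intro y
    have h1 := F.st_st (Sum.inr y)
    rw [hgP, hgP] at h1
    exact Sum.inr_injective h1
  have h0 : Even s0.card := by
    refine even_card s0 gP ?_ (fun a _ => hPne a) (fun a _ => hPinv a)
    intro a ha
    rw [hs0, Finset.mem_filter] at ha ⊢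
    exact ⟨Finset.mem_univ _, by rw [hPi]; exact ha.2⟩
  have h1 : Even s1.card := by
    refine even_card s1 gP ?_ (fun a _ => hPne a) (fun a _ => hPinv a)
    intro a ha
    rw [hs1, Finset.mem_filter] at ha ⊢
    exact ⟨Finset.mem_univ _, by rw [hPi]; exact ha.2⟩
  have hcP : s0.card + s1.card = Fintype.card P := by
    rw [hs0, hs1, Finset.card_filter_add_card_filter_not]
    rfl
  have hsd : F.sd = -(Fintype.card V : K) + s0.card - s1.card := by
    unfold Form.sd
    rw [Fintype.sum_sum_type]
    have e1 : ∑ x : V, sg K (F.o (Sum.inl x)) = -(Fintype.card V : K) := by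
      have e : ∀ x ∈ (Finset.univ : Finset V), sg K (F.o (Sum.inl x)) = -1 := fun x _ => by
        rw [hS.o_V x, sg_true]
      rw [Finset.sum_congr rfl e, Finset.sum_const, nsmul_eq_mul, Finset.card_univ, mul_neg,
        mul_one]
    have e2 : ∑ y : P, sg K (F.o (Sum.inr y)) = (s0.card : K) - s1.card := by
      rw [← Finset.sum_filter_add_sum_filter_not Finset.univ
        (fun y : P => F.o (Sum.inr y) = false)]
      have e3 : ∑ y ∈ s0, sg K (F.o (Sum.inr y)) = (s0.card : K) := by
        have e : ∀ y ∈ s0, sg K (F.o (Sum.inr y)) = 1 := by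
          intro y hy
          rw [hs0, Finset.mem_filter] at hy
          rw [hy.2, sg_false]
        rw [Finset.sum_congr rfl e, Finset.sum_const, nsmul_eq_mul, mul_one]
      have e4 : ∑ y ∈ s1, sg K (F.o (Sum.inr y)) = -(s1.card : K) := by
        have e : ∀ y ∈ s1, sg K (F.o (Sum.inr y)) = -1 := by
          intro y hy
          rw [hs1, Finset.mem_filter, Bool.not_eq_false] at hy
          rw [hy.2, sg_true]
        rw [Finset.sum_congr rfl e, Finset.sum_const, nsmul_eq_mul, mul_neg, mul_one]
      rw [e3, e4]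
      ring
    rw [e1, e2]
    ring
  have hlarge := hS.large
  obtain ⟨v, hv⟩ := hV
  obtain ⟨a, ha⟩ := h0
  obtain ⟨b, hb⟩ := h1
  refine ⟨⟨Fintype.card V + s0.card - s1.card, by omega, ?_⟩, ?_⟩
  · rw [hsd, Nat.cast_sub (by omega)]
    push_cast
    ring
  · refine ⟨v + b - a + 1, by omega, by omega, ?_⟩
    rw [hsd, hv, ha, hb]
    have hab : a ≤ v + b := by omega
    push_cast [Nat.cast_sub hab]
    ring

end Pool.Agent.H65.NL
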